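import Pool.Agent.Helper43.FV.Spec

/-!
# Module LINE: every rational action on a finitely generated field is projectively linear
-/

namespace Pool.Agent.Helper43.FV

open Pool.Agent.Helper43.RS

/-- left translations of functions -/
def LINE_L (G : Type) [Group G] : Representation ℂ G (G → ℂ) where
  toFun g :=
    { toFun := fun f x => f (g⁻¹ * x)
      map_add' := fun _ _ => rfl
      map_smul' := fun _ _ => rfl }
  map_one' := by
    ext f x
    show f (1⁻¹ * x) = f x
    rw [inv_one, one_mul]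
  map_mul' g h := by
    ext f x
    show f ((g * h)⁻¹ * x) = f (h⁻¹ * (g⁻¹ * x))
    rw [mul_inv_rev, mul_assoc]

theorem LINE_L_apply {G : Type} [Group G] (g : G) (f : G → ℂ) (x : G) :
    LINE_L G g f x = f (g⁻¹ * x) := rfl

/-- linearly independent functions: dual combinations of values -/
theorem LINE_dual {G : Type} {e : ℕ} {h : Fin e → G → ℂ} (hh : LinearIndependent ℂ h)
    (j : Fin e) : ∃ c : G →₀ ℂ, ∀ i, (c.sum fun x a => a * h i x) = if i = j then 1 else 0 := by
  have h1 := span_flip_eq_top_iff_linearIndependent.mpr hh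
  have h2 : (Pi.single j 1 : Fin e → ℂ) ∈ Submodule.span ℂ (Set.range (flip h)) := by
    rw [h1]
    exact Submodule.mem_top
  obtain ⟨c, hc⟩ := (Finsupp.mem_span_range_iff_exists_finsupp).mp h2
  refine ⟨c, fun i => ?_⟩
  have h3 := congrFun hc i
  rw [Pi.single_apply] at h3
  rw [← h3]
  simp only [Finsupp.sum, Finset.sum_apply, Pi.smul_apply, smul_eq_mul, flip]

/-- a finite dimensional space of functions, stable by left translations -/
theorem LINE_E {G : Type} [Group G] {H : Subalgebra ℂ (G → ℂ)} (hH : HopfFun H)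
    {κ : Type} [Finite κ] (p : κ → G → ℂ) (hp : ∀ i, p i ∈ H) :
    ∃ (e : ℕ) (h : Fin e → G → ℂ), LinearIndependent ℂ h ∧
      (∀ i, ∃ t : Fin e → ℂ, ∀ x, p i x = ∑ j, t j * h j x) ∧
      ∃ α : G →* GL (Fin e) ℂ,
        (∀ i j, (fun g => (α g : Matrix (Fin e) (Fin e) ℂ) i j) ∈ H) ∧
        ∀ g i x, h i (g⁻¹ * x) = ∑ j, (α g : Matrix (Fin e) (Fin e) ℂ) j i * h j x := by
  classical
  have := Fintype.ofFinite κ
  choose n a b ha hb hab using fun i => hH.mul (p i) (hp i)
  -- the space
  let E : Submodule ℂ (G → ℂ) := Submodule.span ℂ {f | ∃ g i, f = LINE_L G g (p i)}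
  have hE : ∀ g, ∀ w ∈ E, LINE_L G g w ∈ E := by
    intro g w hw
    have h1 : E ≤ E.comap (LINE_L G g) := by
      refine Submodule.span_le.mpr ?_
      rintro f ⟨g', i, rfl⟩
      show LINE_L G g (LINE_L G g' (p i)) ∈ E
      have h2 : LINE_L G g (LINE_L G g' (p i)) = LINE_L G (g * g') (p i) := by
        rw [map_mul]; rfl
      rw [h2]
      exact Submodule.subset_span ⟨_, _, rfl⟩
    exact h1 hw
  let B : Submodule ℂ (G → ℂ) :=
    Submodule.span ℂ (Set.range fun q : (Σ i, Fin (n i)) => b q.1 q.2)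
  have hEB : E ≤ B := by
    refine Submodule.span_le.mpr ?_
    rintro f ⟨g, i, rfl⟩
    have h1 : LINE_L G g (p i) = ∑ l, a i l g⁻¹ • b i l := by
      funext x
      rw [LINE_L_apply, hab, Finset.sum_apply]
      rfl
    rw [h1]
    refine Submodule.sum_mem _ fun l _ => Submodule.smul_mem _ _ (Submodule.subset_span ?_)
    exact ⟨⟨i, l⟩, rfl⟩
  have hEH : ∀ w ∈ E, w ∈ H := by
    intro w hw
    have h1 : E ≤ Subalgebra.toSubmodule H := by
      refine hEB.trans (Submodule.span_le.mpr ?_)
      rintro f ⟨q, rfl⟩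
      exact hb q.1 q.2
    exact h1 hw
  have : FiniteDimensional ℂ B := FiniteDimensional.span_of_finite ℂ (Set.finite_range _)
  have : FiniteDimensional ℂ E := Submodule.finiteDimensional_of_le hEB
  let bas := Module.finBasis ℂ E
  let h : Fin (Module.finrank ℂ E) → G → ℂ := fun i => (bas i : G → ℂ)
  have hli : LinearIndependent ℂ h := bas.linearIndependent.map' E.subtype (Submodule.ker_subtype E)
  let ρE : G →* (E →ₗ[ℂ] E) :=
    { toFun := fun g => (LINE_L G g).restrict (hE g)
      map_one' := by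
        apply LinearMap.ext
        intro v
        apply Subtype.ext
        show LINE_L G 1 (v : G → ℂ) = v
        rw [map_one]; rfl
      map_mul' := by
        intro g g'
        apply LinearMap.ext
        intro v
        apply Subtype.ext
        show LINE_L G (g * g') (v : G → ℂ) = LINE_L G g (LINE_L G g' v)
        rw [map_mul]; rfl }
  let α : G →* GL (Fin (Module.finrank ℂ E)) ℂ :=
    MonoidHom.toHomUnits ((LinearMap.toMatrixAlgEquiv bas).toMonoidHom.comp ρE)
  have hα : ∀ g i j, (α g : Matrix _ _ ℂ) j i = bas.repr (ρE g (bas i)) j := by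
    intro g i j
    show LinearMap.toMatrixAlgEquiv bas (ρE g) j i = _
    rw [LinearMap.toMatrixAlgEquiv_apply]
  have hform : ∀ g i x, h i (g⁻¹ * x) = ∑ j, (α g : Matrix _ _ ℂ) j i * h j x := by
    intro g i x
    have h1 : h i (g⁻¹ * x) = ((ρE g (bas i) : E) : G → ℂ) x := rfl
    rw [h1]
    conv_lhs => rw [← bas.sum_repr (ρE g (bas i))]
    rw [AddSubmonoidClass.coe_finsetSum, Finset.sum_apply]
    refine Finset.sum_congr rfl fun j _ => ?_
    rw [hα]
    rfl
  refine ⟨_, h, hli, ?_, α, ?_, hform⟩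
  · intro i
    have h1 : p i ∈ E := by
      refine Submodule.subset_span ⟨1, i, ?_⟩
      rw [map_one]; rfl
    refine ⟨fun j => bas.repr ⟨p i, h1⟩ j, fun x => ?_⟩
    have h2 := congrArg (fun v : E => (v : G → ℂ) x) (bas.sum_repr ⟨p i, h1⟩)
    simp only at h2
    rw [← h2, AddSubmonoidClass.coe_finsetSum, Finset.sum_apply]
    rfl
  · intro j i
    obtain ⟨c, hc⟩ := LINE_dual hli j
    have h1 : (fun g => (α g : Matrix _ _ ℂ) j i) = ∑ x ∈ c.support, fun g => c x * h i (g⁻¹ * x) := by
      funext g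
      rw [Finset.sum_apply]
      have h2 : ∀ x ∈ c.support, c x * h i (g⁻¹ * x) =
          ∑ l, (α g : Matrix _ _ ℂ) l i * (c x * h l x) := by
        intro x _
        rw [hform, Finset.mul_sum]
        refine Finset.sum_congr rfl fun l _ => ?_
        ring
      rw [Finset.sum_congr rfl h2, Finset.sum_comm]
      have h3 : ∀ l, ∑ x ∈ c.support, (α g : Matrix _ _ ℂ) l i * (c x * h l x) =
          (α g : Matrix _ _ ℂ) l i * (if l = j then 1 else 0) := by
        intro l
        rw [← Finset.mul_sum, ← hc l]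
        rfl
      rw [Finset.sum_congr rfl fun l _ => h3 l]
      simp
    rw [h1]
    refine Subalgebra.sum_mem _ fun x _ => ?_
    obtain ⟨n', a', b', ha', hb', hab'⟩ := hH.mul (h i) (hEH _ (bas i).2)
    have h4 : (fun g => c x * h i (g⁻¹ * x)) =
        ∑ l, (c x * b' l x) • (fun g => a' l g⁻¹ : G → ℂ) := by
      funext g
      rw [hab', Finset.mul_sum, Finset.sum_apply]
      refine Finset.sum_congr rfl fun l _ => ?_
      simp only [Pi.smul_apply, smul_eq_mul]
      ring
    rw [h4]
    refine Subalgebra.sum_mem _ fun l _ => Subalgebra.smul_mem _ (hH.inv _ (ha' l)) _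

theorem LINE_gfam {G K : Type} [Field K] [Algebra ℂ K] {H : Subalgebra ℂ (G → ℂ)}
    {ι : Type} [Fintype ι] {h : ι → G → ℂ} {k : ι → K} (hh : ∀ i, h i ∈ H) {P : G → K}
    (hP : ∀ g, P g = ∑ i, h i g • k i) : GFam H P := by
  refine ⟨Fintype.card ι, fun i => h ((Fintype.equivFin ι).symm i),
    fun i => k ((Fintype.equivFin ι).symm i), fun i => hh _, fun g => ?_⟩
  rw [hP]
  exact (Equiv.sum_comp (Fintype.equivFin ι).symm (fun i => h i g • k i)).symm

theorem LINE_gfam_mul {G K : Type} [Field K] [Algebra ℂ K] {H : Subalgebra ℂ (G → ℂ)}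
    {P Q : G → K} (hP : GFam H P) (hQ : GFam H Q) : GFam H (fun g => P g * Q g) := by
  obtain ⟨n, h, k, hh, hP⟩ := hP
  obtain ⟨n', h', k', hh', hQ⟩ := hQ
  refine LINE_gfam (ι := Fin n × Fin n') (h := fun q => h q.1 * h' q.2)
    (k := fun q => k q.1 * k' q.2) (fun q => H.mul_mem (hh _) (hh' _)) fun g => ?_
  rw [hP, hQ, Finset.sum_mul_sum, Fintype.sum_prod_type]
  refine Finset.sum_congr rfl fun i _ => Finset.sum_congr rfl fun j _ => ?_
  rw [Pi.mul_apply, smul_mul_smul_comm]

theorem LINE_gfam_one {G K : Type} [Field K] [Algebra ℂ K] {H : Subalgebra ℂ (G → ℂ)} :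
    GFam H (fun _ => (1 : K)) := by
  refine LINE_gfam (ι := Unit) (h := fun _ => 1) (k := fun _ => 1) (fun _ => H.one_mem)
    fun g => ?_
  simp

theorem LINE_gfam_prod {G K ι : Type} [Field K] [Algebra ℂ K] {H : Subalgebra ℂ (G → ℂ)}
    (s : Finset ι) (P : ι → G → K) (hP : ∀ i ∈ s, GFam H (P i)) :
    GFam H (fun g => ∏ i ∈ s, P i g) := by
  classical
  induction s using Finset.induction_on with
  | empty =>
    simp only [Finset.prod_empty]
    exact LINE_gfam_one
  | insert a s ha ih =>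
    simp only [Finset.prod_insert ha]
    exact LINE_gfam_mul (hP a (Finset.mem_insert_self _ _))
      (ih fun i hi => hP i (Finset.mem_insert_of_mem hi))

/-- functions independent over `ℂ` are independent over `K` -/
theorem LINE_indep {G K : Type} [Field K] [Algebra ℂ K] {e : ℕ} {h : Fin e → G → ℂ}
    (hh : LinearIndependent ℂ h) {w : Fin e → K} (hw : ∀ x, ∑ i, h i x • w i = 0) (j : Fin e) :
    w j = 0 := by
  obtain ⟨c, hc⟩ := LINE_dual hh j
  have h1 : ∑ x ∈ c.support, c x • ∑ i, h i x • w i = w j := by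
    have h2 : ∀ x ∈ c.support, c x • ∑ i, h i x • w i = ∑ i, (c x * h i x) • w i := by
      intro x _
      rw [Finset.smul_sum]
      refine Finset.sum_congr rfl fun i _ => ?_
      rw [smul_smul]
    rw [Finset.sum_congr rfl h2, Finset.sum_comm]
    have h3 : ∀ i, ∑ x ∈ c.support, (c x * h i x) • w i = (if i = j then (1 : ℂ) else 0) • w i := by
      intro i
      rw [← Finset.sum_smul, ← hc i]
      rfl
    rw [Finset.sum_congr rfl fun i _ => h3 i]
    simp
  rw [← h1]
  refine Finset.sum_eq_zero fun x _ => ?_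
  rw [hw, smul_zero]

theorem st_LINE (hPLU : ST_PLU) : ST_LINE := by
  classical
  intro G _ H hH K _ _ ⟨s, hs⟩ ρ hρ
  choose N D hN hD hD1 hND using hρ
  -- the families
  let f : Option s → K := fun k => k.elim 1 (fun a => (a : K))
  let P : Option s → G → K := fun k x => ρ x (f k) * ∏ a ∈ s, D a x
  have hP : ∀ k, GFam H (P k) := by
    intro k
    cases k with
    | none =>
      have h1 : P none = fun x => ∏ a ∈ s, D a x := by
        funext x
        show ρ x 1 * _ = _
        rw [map_one, one_mul]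
      rw [h1]
      exact LINE_gfam_prod s _ fun a _ => hD a
    | some a =>
      have h1 : P (some a) = fun x => N a x * ∏ b ∈ s.erase a, D b x := by
        funext x
        show ρ x (a : K) * _ = _
        rw [← Finset.mul_prod_erase s (fun b => D b x) a.2, ← hND, ← mul_assoc,
          mul_comm (ρ x (a : K))]
      rw [h1]
      exact LINE_gfam_mul (hN a) (LINE_gfam_prod _ _ fun b _ => hD b)
  have hPk : ∀ k x, P k x = ρ x (f k) * P none x := by
    intro k x
    show ρ x (f k) * _ = ρ x (f k) * (ρ x 1 * _)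
    rw [map_one, one_mul]
  have hP1 : P none 1 ≠ 0 := by
    show ρ 1 1 * _ ≠ 0
    rw [map_one ρ, map_one, one_mul]
    exact Finset.prod_ne_zero_iff.mpr fun a _ => hD1 a
  choose n p κ hp hPp using hP
  obtain ⟨e, h, hli, hsp, α, hαH, hα⟩ := LINE_E hH
    (fun q : (Σ k : Option s, Fin (n k)) => p q.1 q.2) (fun q => hp q.1 q.2)
  choose t ht using hsp
  let ι := Fin e × Option s
  let eq : ι ≃ Fin (Fintype.card ι) := Fintype.equivFin ι
  -- the representation
  let F : Matrix (Fin e) (Fin e) ℂ →* Matrix (Fin (Fintype.card ι)) (Fin (Fintype.card ι)) ℂ :=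
    { toFun := fun M => Matrix.reindex eq eq (Matrix.blockDiagonal fun _ : Option s => M)
      map_one' := by
        have h1 : (Matrix.blockDiagonal fun _ : Option s => (1 : Matrix (Fin e) (Fin e) ℂ)) = 1 :=
          Matrix.blockDiagonal_one
        rw [h1]
        simp
      map_mul' := by
        intro M M'
        rw [Matrix.blockDiagonal_mul]
        simp only [Matrix.reindex_apply]
        rw [Matrix.submatrix_mul_equiv] }
  let β : G →* GL (Fin (Fintype.card ι)) ℂ := (Units.map F).comp α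
  have hβ : ∀ g i j k l, (β g : Matrix (Fin (Fintype.card ι)) (Fin (Fintype.card ι)) ℂ) (eq (i, k)) (eq (j, l)) =
      if k = l then (α g : Matrix _ _ ℂ) i j else 0 := by
    intro g i j k l
    show Matrix.reindex eq eq (Matrix.blockDiagonal fun _ : Option s => (α g : Matrix _ _ ℂ))
      (eq (i, k)) (eq (j, l)) = _
    rw [Matrix.reindex_apply, Matrix.submatrix_apply, Equiv.symm_apply_apply,
      Equiv.symm_apply_apply, Matrix.blockDiagonal_apply]
  have hβH : ∀ i j, (fun g => (β g : Matrix (Fin (Fintype.card ι)) (Fin (Fintype.card ι)) ℂ) i j) ∈ H := by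
    intro i j
    obtain ⟨⟨i, k⟩, rfl⟩ := eq.surjective i
    obtain ⟨⟨j, l⟩, rfl⟩ := eq.surjective j
    simp only [hβ]
    by_cases hkl : k = l
    · simp only [if_pos hkl]
      exact hαH i j
    · simp only [if_neg hkl]
      exact H.zero_mem
  -- the submodule
  let W : Submodule K (Fin (Fintype.card ι) → K) :=
    { carrier := {w | ∀ k x, ∑ j, h j x • w (eq (j, k)) =
        ρ x (f k) * ∑ j, h j x • w (eq (j, none))}
      add_mem' := by
        intro a b ha hb k x
        simp only [Pi.add_apply, smul_add, Finset.sum_add_distrib]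
        rw [ha, hb, mul_add]
      zero_mem' := by
        intro k x
        simp
      smul_mem' := by
        intro c a ha k x
        have h1 : ∀ k, ∑ j, h j x • (c • a) (eq (j, k)) = c * ∑ j, h j x • a (eq (j, k)) := by
          intro k
          rw [Finset.mul_sum]
          refine Finset.sum_congr rfl fun j _ => ?_
          rw [Pi.smul_apply, smul_eq_mul, mul_smul_comm]
        rw [h1, h1, ha]
        ring }
  have hWmem : ∀ w, w ∈ W ↔ ∀ k x, ∑ j, h j x • w (eq (j, k)) =
        ρ x (f k) * ∑ j, h j x • w (eq (j, none)) := fun w => Iff.rfl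
  -- the initial element
  let w₀ : Fin (Fintype.card ι) → K := fun q =>
    ∑ i : Fin (n (eq.symm q).2), t ⟨(eq.symm q).2, i⟩ (eq.symm q).1 • κ (eq.symm q).2 i
  have hw₀ : ∀ j k, w₀ (eq (j, k)) = ∑ i, t ⟨k, i⟩ j • κ k i := by
    intro j k
    show ∑ i : Fin (n (eq.symm (eq (j, k))).2), _ = _
    rw [Equiv.symm_apply_apply]
  have hw₀P : ∀ k x, ∑ j, h j x • w₀ (eq (j, k)) = P k x := by
    intro k x
    rw [hPp]
    have h1 : ∀ j, h j x • w₀ (eq (j, k)) = ∑ i, (t ⟨k, i⟩ j * h j x) • κ k i := by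
      intro j
      rw [hw₀, Finset.smul_sum]
      refine Finset.sum_congr rfl fun i _ => ?_
      rw [smul_smul, mul_comm]
    rw [Finset.sum_congr rfl fun j _ => h1 j, Finset.sum_comm]
    refine Finset.sum_congr rfl fun i _ => ?_
    rw [← Finset.sum_smul, ht ⟨k, i⟩ x]
  have hw₀W : w₀ ∈ W := by
    intro k x
    rw [hw₀P, hw₀P, hPk]
  have hWne : W ≠ ⊥ := by
    intro hbot
    rw [hbot, Submodule.mem_bot] at hw₀W
    apply hP1
    rw [← hw₀P, hw₀W]
    simp
  have hstab : ∀ g, ∀ w ∈ W,
      (fun i => ∑ j, (β g : Matrix (Fin (Fintype.card ι)) (Fin (Fintype.card ι)) ℂ) i j • ρ g (w j)) ∈ W := by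
    intro g w hw
    have h1 : ∀ i k, ∑ j, (β g : Matrix (Fin (Fintype.card ι)) (Fin (Fintype.card ι)) ℂ) (eq (i, k)) j • ρ g (w j) =
        ∑ j, (α g : Matrix (Fin e) (Fin e) ℂ) i j • ρ g (w (eq (j, k))) := by
      intro i k
      rw [← Equiv.sum_comp eq, Fintype.sum_prod_type]
      refine Finset.sum_congr rfl fun j _ => ?_
      simp only [hβ]
      rw [Finset.sum_eq_single k]
      · rw [if_pos rfl]
      · intro l _ hl
        rw [if_neg (Ne.symm hl), zero_smul]
      · intro hk
        exact absurd (Finset.mem_univ k) hk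
    have h2 : ∀ k x, ∑ i, h i x • ∑ j, (α g : Matrix (Fin e) (Fin e) ℂ) i j • ρ g (w (eq (j, k))) =
        ρ g (∑ j, h j (g⁻¹ * x) • w (eq (j, k))) := by
      intro k x
      rw [map_sum]
      have h3 : ∀ i, h i x • ∑ j, (α g : Matrix (Fin e) (Fin e) ℂ) i j • ρ g (w (eq (j, k))) =
          ∑ j, ((α g : Matrix _ _ ℂ) i j * h i x) • ρ g (w (eq (j, k))) := by
        intro i
        rw [Finset.smul_sum]
        refine Finset.sum_congr rfl fun j _ => ?_
        rw [smul_smul, mul_comm]
      rw [Finset.sum_congr rfl fun i _ => h3 i, Finset.sum_comm]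
      refine Finset.sum_congr rfl fun j _ => ?_
      rw [← Finset.sum_smul, map_smul, hα]
    intro k x
    simp only [h1]
    rw [h2, h2, hw k (g⁻¹ * x), map_mul]
    congr 1
    have h4 : ρ g (ρ (g⁻¹ * x) (f k)) = (ρ g * ρ (g⁻¹ * x)) (f k) := rfl
    rw [h4, ← map_mul, mul_inv_cancel_left]
  obtain ⟨V, iA, iM, iF, π, j, c, hrat, hc, hj, hjm, w, hwW, hw, hwK⟩ :=
    hPLU G H hH K ρ (Fintype.card ι) β hβH W hWne hstab
  refine ⟨V, iA, iM, iF, π, j, c, hrat, hc, hj, hjm, ?_⟩
  set L := IntermediateField.adjoin ℂ {x : K | ∃ m m', x = j m / j m'} with hL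
  have hLst : ∀ g, ∀ y ∈ L, ρ g y ∈ L := by
    intro g y hy
    have h1 : L ≤ L.comap (ρ g : K →ₐ[ℂ] K) := by
      rw [hL]
      refine IntermediateField.adjoin_le_iff.mpr ?_
      rintro y ⟨m, m', rfl⟩
      show ρ g (j m / j m') ∈ IntermediateField.adjoin ℂ {x : K | ∃ m m', x = j m / j m'}
      refine IntermediateField.subset_adjoin _ _ ⟨π g m, π g m', ?_⟩
      rw [hj, hj, mul_div_mul_left _ _ (hc g), map_div₀]
    exact h1 hy
  have hsum : ∀ k x, ∑ i, h i x • w (eq (i, k)) ∈ L := fun k x =>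
    sum_mem fun i _ => L.smul_mem (hwK _)
  have hx : ∃ x, ∑ i, h i x • w (eq (i, none)) ≠ 0 := by
    by_contra hcon
    push Not at hcon
    apply hw
    funext q
    obtain ⟨⟨i, k⟩, rfl⟩ := eq.surjective q
    exact LINE_indep hli (w := fun i => w (eq (i, k)))
      (fun x => by rw [hwW k x, hcon x, mul_zero]) i
  obtain ⟨x, hx⟩ := hx
  show L = ⊤
  rw [eq_top_iff, ← (show IntermediateField.adjoin ℂ (s : Set K) = ⊤ from hs)]
  refine IntermediateField.adjoin_le_iff.mpr ?_
  intro a ha
  have h1 : ρ x a ∈ L := by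
    have h2 := hwW (some ⟨a, ha⟩) x
    have h3 : ρ x a = (∑ i, h i x • w (eq (i, some ⟨a, ha⟩))) / ∑ i, h i x • w (eq (i, none)) := by
      rw [eq_div_iff hx, h2]
      rfl
    rw [h3]
    exact L.div_mem (hsum _ x) (hsum _ x)
  have h2 := hLst x⁻¹ _ h1
  have h3 : ρ x⁻¹ (ρ x a) = (ρ x⁻¹ * ρ x) a := rfl
  rw [h3, ← map_mul, inv_mul_cancel, map_one] at h2
  exact h2

end Pool.Agent.Helper43.FV
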